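import Mathlib

set_option autoImplicit false

/-!
Finitely supported laws on the real line and their total variation distance.
-/

namespace Pool.Agent.Lib.MP_4c6e08_pr

open MeasureTheory Finset
open scoped ENNReal

section
variable {Z : Type*} [Fintype Z]

/-- The measure with mass `m z` at the point `ι z`. -/
noncomputable def atomic (m : Z → ℝ) (ι : Z → ℝ) : Measure ℝ :=
  ∑ z, ENNReal.ofReal (m z) • Measure.dirac (ι z)

open Classical in
lemma atomic_apply (m : Z → ℝ) (ι : Z → ℝ) (A : Set ℝ) :
    atomic m ι A = ∑ z, if ι z ∈ A then ENNReal.ofReal (m z) else 0 := by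
  rw [atomic, Measure.finsetSum_apply]
  apply sum_congr rfl
  intro z _
  rw [Measure.smul_apply, Measure.dirac_apply, smul_eq_mul, Set.indicator_apply]
  split_ifs <;> simp

open Classical in
lemma atomic_real (m : Z → ℝ) (hm : ∀ z, 0 ≤ m z) (ι : Z → ℝ) (A : Set ℝ) :
    (atomic m ι).real A = ∑ z, if ι z ∈ A then m z else 0 := by
  rw [measureReal_def, atomic_apply, ENNReal.toReal_sum]
  · apply sum_congr rfl
    intro z _
    split_ifs
    · exact ENNReal.toReal_ofReal (hm z)
    · simp
  · intro z _
    split_ifs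
    · exact ENNReal.ofReal_ne_top
    · exact ENNReal.zero_ne_top

lemma atomic_isProb (m : Z → ℝ) (hm : ∀ z, 0 ≤ m z) (hm1 : ∑ z, m z = 1) (ι : Z → ℝ) :
    IsProbabilityMeasure (atomic m ι) := by
  classical
  constructor
  rw [atomic_apply]
  simp only [Set.mem_univ, if_true]
  rw [← ENNReal.ofReal_sum_of_nonneg (fun z _ => hm z), hm1, ENNReal.ofReal_one]

/-- The total variation distance of two finitely supported laws. -/
lemma atomic_tv (m m' : Z → ℝ) (hm : ∀ z, 0 ≤ m z) (hm' : ∀ z, 0 ≤ m' z)
    (hm1 : ∑ z, m z = 1) (hm1' : ∑ z, m' z = 1) (ι : Z → ℝ) (hι : Function.Injective ι) :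
    sSup {r : ℝ | ∃ A : Set ℝ, MeasurableSet A ∧
      r = |(atomic m ι).real A - (atomic m' ι).real A|} = 1 - ∑ z, min (m z) (m' z) := by
  classical
  have hdiff : ∀ (m m' : Z → ℝ), (∀ z, 0 ≤ m z) → (∀ z, 0 ≤ m' z) → ∑ z, m z = 1 →
      ∀ A : Set ℝ, (atomic m ι).real A - (atomic m' ι).real A ≤ 1 - ∑ z, min (m z) (m' z) := by
    intro m m' hm hm' hm1 A
    rw [atomic_real m hm, atomic_real m' hm', ← hm1, ← sum_sub_distrib, ← sum_sub_distrib]
    apply sum_le_sum
    intro z _
    split_ifs
    · have := min_le_right (m z) (m' z)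
      linarith
    · have := min_le_left (m z) (m' z)
      linarith
  have hA0 : MeasurableSet (ι '' {z | m' z < m z}) :=
    ((Set.toFinite {z | m' z < m z}).image ι).measurableSet
  have hatt : (atomic m ι).real (ι '' {z | m' z < m z}) -
      (atomic m' ι).real (ι '' {z | m' z < m z}) = 1 - ∑ z, min (m z) (m' z) := by
    rw [atomic_real m hm, atomic_real m' hm', ← hm1, ← sum_sub_distrib, ← sum_sub_distrib]
    apply sum_congr rfl
    intro z _
    have hz : ι z ∈ ι '' {z | m' z < m z} ↔ m' z < m z := by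
      constructor
      · rintro ⟨z', hz', he⟩
        rw [← hι he]; exact hz'
      · intro h
        exact ⟨z, h, rfl⟩
    by_cases h : m' z < m z
    · rw [if_pos (hz.2 h), if_pos (hz.2 h), min_eq_right h.le]
    · rw [if_neg (fun h' => h (hz.1 h')), if_neg (fun h' => h (hz.1 h')),
        min_eq_left (not_lt.1 h), sub_self, sub_self]
  have hnonneg : 0 ≤ 1 - ∑ z, min (m z) (m' z) := by
    rw [← hm1, ← sum_sub_distrib]
    apply sum_nonneg
    intro z _
    have := min_le_left (m z) (m' z)
    linarith
  apply le_antisymm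
  · apply csSup_le
    · exact ⟨_, ∅, MeasurableSet.empty, rfl⟩
    · rintro r ⟨A, hA, rfl⟩
      rw [abs_le]
      constructor
      · have := hdiff m' m hm' hm hm1' A
        have e : ∑ z, min (m' z) (m z) = ∑ z, min (m z) (m' z) :=
          sum_congr rfl fun z _ => min_comm _ _
        rw [e] at this
        linarith
      · exact hdiff m m' hm hm' hm1 A
  · apply le_csSup
    · refine ⟨1, ?_⟩
      rintro r ⟨A, hA, rfl⟩
      have hp := atomic_isProb m hm hm1 ι
      have hp' := atomic_isProb m' hm' hm1' ι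
      have h1 : (atomic m ι).real A ≤ 1 := measureReal_le_one
      have h2 : (atomic m' ι).real A ≤ 1 := measureReal_le_one
      have h3 : 0 ≤ (atomic m ι).real A := measureReal_nonneg
      have h4 : 0 ≤ (atomic m' ι).real A := measureReal_nonneg
      rw [abs_le]
      constructor <;> linarith
    · refine ⟨_, hA0, ?_⟩
      rw [hatt, abs_of_nonneg hnonneg]

end

end Pool.Agent.Lib.MP_4c6e08_pr
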