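import Mathlib

set_option autoImplicit false

/-!
The first hit lemma for i.i.d. sequences.
-/

namespace Pool.Agent.Lib.MP_4c6e08_pr

open MeasureTheory Set

universe u

/-- The event that the first `k` terms avoid `R` and the `k`-th term lies in `R ∩ B`. -/
def hitAt {E : Type u} (R B : Set E) (k : ℕ) : Set (ℕ → E) :=
  {ω | (∀ l < k, ω l ∉ R) ∧ ω k ∈ R ∧ ω k ∈ B}

/-- The event that the sequence hits `R` and that its first term in `R` lies in `B`. -/
def firstHit {E : Type u} (R B : Set E) : Set (ℕ → E) := ⋃ k, hitAt R B k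

lemma hitAt_eq {E : Type u} (R B : Set E) (k : ℕ) :
    hitAt R B k = Set.pi (Finset.range (k + 1)) (fun l => if l < k then Rᶜ else R ∩ B) := by
  ext ω
  simp only [hitAt, Set.mem_ofPred_eq, Set.mem_pi, Finset.coe_range, Set.mem_Iio]
  constructor
  · rintro ⟨h1, h2, h3⟩ l hl
    by_cases hlk : l < k
    · simpa [hlk] using h1 l hlk
    · have : l = k := by omega
      subst this
      simp [h2, h3]
  · intro h
    refine ⟨fun l hl => ?_, ?_⟩
    · have := h l (by omega)
      simpa [hl] using this
    · have := h k (by omega)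
      simpa using this

variable {E : Type u} [MeasurableSpace E]

lemma measurableSet_hitAt {R B : Set E} (hR : MeasurableSet R) (hB : MeasurableSet B) (k : ℕ) :
    MeasurableSet (hitAt R B k) := by
  rw [hitAt_eq]
  apply MeasurableSet.pi (Finset.countable_toSet _)
  intro l _
  split_ifs
  · exact hR.compl
  · exact hR.inter hB

lemma measurableSet_firstHit {R B : Set E} (hR : MeasurableSet R) (hB : MeasurableSet B) :
    MeasurableSet (firstHit R B) :=
  MeasurableSet.iUnion fun k => measurableSet_hitAt hR hB k

lemma measure_hitAt (π : Measure E) [IsProbabilityMeasure π] {R B : Set E}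
    (hR : MeasurableSet R) (hB : MeasurableSet B) (k : ℕ) :
    Measure.infinitePi (fun _ : ℕ => π) (hitAt R B k) = (1 - π R) ^ k * π (R ∩ B) := by
  rw [hitAt_eq, Measure.infinitePi_pi]
  · rw [Finset.prod_range_succ]
    simp only [lt_irrefl, if_false]
    congr 1
    rw [Finset.prod_congr rfl (g := fun _ => 1 - π R)]
    · simp
    · intro l hl
      rw [Finset.mem_range] at hl
      rw [if_pos hl, prob_compl_eq_one_sub hR]
  · intro l _
    split_ifs
    · exact hR.compl
    · exact hR.inter hB

lemma measure_firstHit (π : Measure E) [IsProbabilityMeasure π] {R B : Set E}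
    (hR : MeasurableSet R) (hB : MeasurableSet B) :
    Measure.infinitePi (fun _ : ℕ => π) (firstHit R B) = (π R)⁻¹ * π (R ∩ B) := by
  rw [firstHit, measure_iUnion]
  · simp_rw [measure_hitAt π hR hB]
    rw [ENNReal.tsum_mul_right, ENNReal.tsum_geometric]
    congr 2
    exact ENNReal.sub_sub_cancel ENNReal.one_ne_top prob_le_one
  · intro k l hkl
    rw [Function.onFun, Set.disjoint_left]
    rintro ω ⟨h1, h2, -⟩ ⟨h3, h4, -⟩
    rcases lt_or_gt_of_ne hkl with h | h
    · exact h3 k h h2
    · exact h1 l h h4
  · exact fun k => measurableSet_hitAt hR hB k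

end Pool.Agent.Lib.MP_4c6e08_pr
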