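import Mathlib
import Pool.Agent.Lib.MP_4c6e08_pr.FirstHit

set_option autoImplicit false

/-!
The rejection coupling of finitely many probability measures.
-/

namespace Pool.Agent.Lib.MP_4c6e08_pr

open MeasureTheory Set
open scoped ENNReal

universe u

/-- The region under the graph of `h`. -/
def region {E : Type u} (h : E → ℝ≥0∞) : Set (E × ℝ) :=
  {p | 0 < p.2 ∧ ENNReal.ofReal p.2 ≤ h p.1}

section
variable {E : Type u} [MeasurableSpace E]

lemma measurableSet_region {h : E → ℝ≥0∞} (hh : Measurable h) : MeasurableSet (region h) := by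
  apply MeasurableSet.inter
  · exact measurableSet_lt measurable_const measurable_snd
  · exact measurableSet_le (ENNReal.measurable_ofReal.comp measurable_snd)
      (hh.comp measurable_fst)

lemma region_measure (M : Measure E) [SFinite M] {h : E → ℝ≥0∞} (hh : Measurable h)
    (h1 : ∀ y, h y ≤ 1) {A : Set E} (hA : MeasurableSet A) :
    (M.prod ((volume : Measure ℝ).restrict (Ioc 0 1))) (region h ∩ (A ×ˢ univ)) =
      ∫⁻ y in A, h y ∂M := by
  rw [Measure.prod_apply ((measurableSet_region hh).inter (hA.prod MeasurableSet.univ)),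
    ← lintegral_indicator hA]
  apply lintegral_congr
  intro y
  by_cases hy : y ∈ A
  · rw [indicator_of_mem hy]
    have hne : h y ≠ ∞ := ne_top_of_le_ne_top ENNReal.one_ne_top (h1 y)
    have e1 : Prod.mk y ⁻¹' (region h ∩ (A ×ˢ univ)) = Ioc 0 (h y).toReal := by
      ext u
      simp only [region, mem_preimage, mem_inter_iff, mem_prod, hy, mem_univ, and_self, and_true,
        mem_Ioc]
      constructor
      · rintro ⟨h2, h3⟩
        refine ⟨h2, ?_⟩
        exact (ENNReal.ofReal_le_iff_le_toReal hne).1 h3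
      · rintro ⟨h2, h3⟩
        exact ⟨h2, (ENNReal.ofReal_le_iff_le_toReal hne).2 h3⟩
    have e2 : (h y).toReal ≤ 1 := by
      have := ENNReal.toReal_mono ENNReal.one_ne_top (h1 y)
      simpa using this
    rw [e1, Measure.restrict_apply measurableSet_Ioc, inter_eq_left.2 (Ioc_subset_Ioc_right e2),
      Real.volume_Ioc, sub_zero, ENNReal.ofReal_toReal hne]
  · rw [indicator_of_notMem hy]
    have e1 : Prod.mk y ⁻¹' (region h ∩ (A ×ˢ univ)) = ∅ := by
      ext u
      simp [hy]
    rw [e1, measure_empty]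

end

section
variable {E : Type u} [MeasurableSpace E] {n : ℕ}

/-- The sum of the laws. -/
noncomputable def tot (μ : Fin n → Measure E) : Measure E := ∑ i, μ i

/-- The density of the `i`-th law with respect to the sum. -/
noncomputable def dens (μ : Fin n → Measure E) (i : Fin n) : E → ℝ≥0∞ :=
  fun y => min ((μ i).rnDeriv (tot μ) y) 1

variable (μ : Fin n → Measure E) [∀ i, IsProbabilityMeasure (μ i)]

instance : IsFiniteMeasure (tot μ) := by
  unfold tot
  infer_instance

omit [∀ i, IsProbabilityMeasure (μ i)] in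
lemma le_tot (i : Fin n) : μ i ≤ tot μ := by
  intro A
  rw [tot, Measure.finsetSum_apply]
  exact Finset.single_le_sum (f := fun i => μ i A) (fun _ _ => bot_le) (Finset.mem_univ i)

lemma tot_univ : tot μ univ = n := by
  rw [tot, Measure.finsetSum_apply]
  simp

omit [∀ i, IsProbabilityMeasure (μ i)] in
lemma measurable_dens (i : Fin n) : Measurable (dens μ i) :=
  (Measure.measurable_rnDeriv _ _).min measurable_const

omit [∀ i, IsProbabilityMeasure (μ i)] in
lemma dens_le_one (i : Fin n) (y : E) : dens μ i y ≤ 1 := min_le_right _ _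

lemma lintegral_dens (i : Fin n) (A : Set E) : ∫⁻ y in A, dens μ i y ∂(tot μ) = μ i A := by
  rw [← Measure.setLIntegral_rnDeriv (Measure.absolutelyContinuous_of_le (le_tot μ i)) A]
  apply lintegral_congr_ae
  have h := Measure.rnDeriv_le_one_of_le (le_tot μ i)
  filter_upwards [ae_restrict_of_ae h] with y hy
  exact min_eq_left hy

/-- The unnormalised proposal measure. -/
noncomputable def rho : Measure (E × ℝ) := (tot μ).prod ((volume : Measure ℝ).restrict (Ioc 0 1))

instance : IsFiniteMeasure (rho μ) := by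
  unfold rho
  have : IsFiniteMeasure ((volume : Measure ℝ).restrict (Ioc 0 1)) := ⟨by simp⟩
  infer_instance

lemma rho_univ : rho μ univ = n := by
  rw [rho, ← univ_prod_univ, Measure.prod_prod, tot_univ]
  simp

/-- The proposal law. -/
noncomputable def prop : Measure (E × ℝ) := (n : ℝ≥0∞)⁻¹ • rho μ

lemma prop_isProb (hn : 0 < n) : IsProbabilityMeasure (prop μ) := by
  constructor
  rw [prop, Measure.smul_apply, rho_univ, smul_eq_mul]
  apply ENNReal.inv_mul_cancel
  · exact_mod_cast hn.ne'
  · exact ENNReal.natCast_ne_top n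

lemma rho_region (i : Fin n) {A : Set E} (hA : MeasurableSet A) :
    rho μ (region (dens μ i) ∩ (A ×ˢ univ)) = μ i A := by
  rw [rho, region_measure _ (measurable_dens μ i) (dens_le_one μ i) hA, lintegral_dens]

lemma rho_region_univ (i : Fin n) : rho μ (region (dens μ i)) = 1 := by
  have := rho_region μ i MeasurableSet.univ
  rw [univ_prod_univ, inter_univ] at this
  rw [this]; simp

/-- The overlap of two acceptance regions. -/
lemma rho_inter_ge (i j : Fin n) {d : ℝ}
    (hd : ∀ A, MeasurableSet A → (μ i).real A - (μ j).real A ≤ d) :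
    1 - d ≤ (rho μ).real (region (dens μ i) ∩ region (dens μ j)) := by
  set D : Set E := {y | dens μ j y < dens μ i y} with hD
  have hDm : MeasurableSet D := measurableSet_lt (measurable_dens μ j) (measurable_dens μ i)
  have hRi := measurableSet_region (measurable_dens μ i)
  have hRj := measurableSet_region (measurable_dens μ j)
  have hDu : MeasurableSet (D ×ˢ (univ : Set ℝ)) := hDm.prod MeasurableSet.univ
  have e1 : region (dens μ i) \ region (dens μ j) =
      (region (dens μ i) ∩ (D ×ˢ univ)) \ (region (dens μ j) ∩ (D ×ˢ univ)) := by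
    ext ⟨y, u⟩
    simp only [region, mem_sdiff, mem_inter_iff, mem_prod, mem_univ, and_true, hD, mem_ofPred_eq,
      not_and, not_le]
    constructor
    · rintro ⟨⟨h1, h2⟩, h3⟩
      have h4 := h3 h1
      exact ⟨⟨⟨h1, h2⟩, lt_of_lt_of_le h4 h2⟩, fun h5 => absurd h5.2 (not_le.2 h4)⟩
    · rintro ⟨⟨⟨h1, h2⟩, h3⟩, h4⟩
      refine ⟨⟨h1, h2⟩, fun _ => ?_⟩
      by_contra h5
      exact h4 ⟨h1, not_lt.1 h5⟩ h3
  have e2 : region (dens μ j) ∩ (D ×ˢ univ) ⊆ region (dens μ i) ∩ (D ×ˢ univ) := by
    rintro ⟨y, u⟩ ⟨⟨h1, h2⟩, h3⟩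
    exact ⟨⟨h1, h2.trans (le_of_lt h3.1)⟩, h3⟩
  have e3 : (rho μ).real (region (dens μ i) \ region (dens μ j)) =
      (μ i).real D - (μ j).real D := by
    rw [e1, measureReal_sdiff e2 (hRj.inter hDu)]
    simp only [measureReal_def, rho_region μ _ hDm]
  have e4 := measureReal_inter_add_sdiff (μ := rho μ) (s := region (dens μ i)) hRj
  have e5 : (rho μ).real (region (dens μ i)) = 1 := by
    rw [measureReal_def, rho_region_univ]; simp
  have e6 := hd D hDm
  rw [e3, e5] at e4
  linarith

end

/-! ### The coupling -/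

section
variable {E : Type u} [MeasurableSpace E]

/-- The hitting predicate, made total. -/
def hitPred (R : Set (E × ℝ)) (k : ℕ) (ω : ℕ → E × ℝ) : Prop := ω k ∈ R ∨ ∀ l, ω l ∉ R

omit [MeasurableSpace E] in
lemma exists_hitPred (R : Set (E × ℝ)) (ω : ℕ → E × ℝ) : ∃ k, hitPred R k ω := by
  by_cases h : ∃ k, ω k ∈ R
  · obtain ⟨k, hk⟩ := h
    exact ⟨k, Or.inl hk⟩
  · exact ⟨0, Or.inr (fun l hl => h ⟨l, hl⟩)⟩

open Classical in
/-- The value of the first proposal in `R`. -/
noncomputable def pick (R : Set (E × ℝ)) (ω : ℕ → E × ℝ) : E :=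
  (ω (Nat.find (exists_hitPred R ω))).1

lemma measurable_pick {R : Set (E × ℝ)} (hR : MeasurableSet R) : Measurable (pick R) := by
  classical
  have h1 : ∀ k, MeasurableSet {ω : ℕ → E × ℝ | ω k ∈ R} := fun k =>
    (measurable_pi_apply k) hR
  have h2 : MeasurableSet {ω : ℕ → E × ℝ | ∀ l, ω l ∉ R} := by
    have : {ω : ℕ → E × ℝ | ∀ l, ω l ∉ R} = ⋂ l, {ω : ℕ → E × ℝ | ω l ∈ R}ᶜ := by
      ext ω
      simp
    rw [this]
    exact MeasurableSet.iInter fun l => (h1 l).compl
  exact Measurable.find (f := fun k (ω : ℕ → E × ℝ) => (ω k).1) (p := hitPred R)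
    (fun k => measurable_fst.comp (measurable_pi_apply k)) (fun k => (h1 k).union h2)
    (exists_hitPred R)

omit [MeasurableSpace E] in
lemma pick_eq {R : Set (E × ℝ)} {ω : ℕ → E × ℝ} {k : ℕ} (h1 : ∀ l < k, ω l ∉ R)
    (h2 : ω k ∈ R) : pick R ω = (ω k).1 := by
  classical
  have : Nat.find (exists_hitPred R ω) = k := by
    rw [Nat.find_eq_iff]
    refine ⟨Or.inl h2, fun l hl h3 => ?_⟩
    rcases h3 with h3 | h3
    · exact h1 l hl h3
    · exact h3 k h2
  unfold pick
  rw [this]

omit [MeasurableSpace E] in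
lemma firstHit_subset_pick (R : Set (E × ℝ)) (A : Set E) :
    firstHit R (A ×ˢ univ) ⊆ pick R ⁻¹' A := by
  intro ω hω
  rw [firstHit, mem_iUnion] at hω
  obtain ⟨k, h1, h2, h3⟩ := hω
  rw [mem_preimage, pick_eq h1 h2]
  exact h3.1

omit [MeasurableSpace E] in
lemma firstHit_subset_eq (R S : Set (E × ℝ)) :
    firstHit (R ∪ S) (R ∩ S) ⊆ {ω | pick R ω = pick S ω} := by
  intro ω hω
  rw [firstHit, mem_iUnion] at hω
  obtain ⟨k, h1, -, h2, h3⟩ := hω
  rw [mem_ofPred_eq, pick_eq (fun l hl h => h1 l hl (Or.inl h)) h2,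
    pick_eq (fun l hl h => h1 l hl (Or.inr h)) h3]

end

/-- **The rejection coupling.** -/
theorem exists_coupling {n : ℕ} (μ : Fin n → Measure ℝ) (hμ : ∀ i, IsProbabilityMeasure (μ i)) :
    ∃ (Ω : Type) (_ : MeasurableSpace Ω) (P : Measure Ω) (X : Fin n → Ω → ℝ),
      IsProbabilityMeasure P ∧ (∀ i, Measurable (X i)) ∧ (∀ i, P.map (X i) = μ i) ∧
      ∀ i j (d : ℝ), 0 ≤ d → d ≤ 1 →
        (∀ A, MeasurableSet A → (μ i).real A - (μ j).real A ≤ d) →
        P.real {ω | X i ω ≠ X j ω} ≤ 2 * d / (1 + d) := by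
  rcases Nat.eq_zero_or_pos n with rfl | hn
  · exact ⟨Unit, inferInstance, Measure.dirac (), fun i => i.elim0, inferInstance,
      fun i => i.elim0, fun i => i.elim0, fun i => i.elim0⟩
  have hπ : IsProbabilityMeasure (prop μ) := prop_isProb μ hn
  let P : Measure (ℕ → ℝ × ℝ) := Measure.infinitePi (fun _ : ℕ => prop μ)
  let R : Fin n → Set (ℝ × ℝ) := fun i => region (dens μ i)
  have hR : ∀ i, MeasurableSet (R i) := fun i => measurableSet_region (measurable_dens μ i)
  have hn0 : (n : ℝ≥0∞)⁻¹ ≠ 0 := ENNReal.inv_ne_zero.2 (ENNReal.natCast_ne_top n)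
  have hnt : (n : ℝ≥0∞)⁻¹ ≠ ∞ := ENNReal.inv_ne_top.2 (by exact_mod_cast hn.ne')
  have hmeas : ∀ i, Measurable (pick (R i)) := fun i => measurable_pick (hR i)
  -- the law of the first proposal
  have hfh : ∀ S B : Set (ℝ × ℝ), MeasurableSet S → MeasurableSet B →
      P (firstHit S B) = (rho μ S)⁻¹ * rho μ (S ∩ B) := by
    intro S B hS hB
    show Measure.infinitePi (fun _ : ℕ => prop μ) (firstHit S B) = _
    rw [measure_firstHit (prop μ) hS hB, prop, Measure.smul_apply, Measure.smul_apply,
      smul_eq_mul, smul_eq_mul, ENNReal.mul_inv (Or.inl hn0) (Or.inl hnt), inv_inv]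
    rw [mul_mul_mul_comm, ENNReal.mul_inv_cancel (by exact_mod_cast hn.ne')
      (ENNReal.natCast_ne_top n), one_mul]
  refine ⟨ℕ → ℝ × ℝ, inferInstance, P, fun i => pick (R i), inferInstance, hmeas, ?_, ?_⟩
  · intro i
    have hle : ∀ A, MeasurableSet A → μ i A ≤ P.map (pick (R i)) A := by
      intro A hA
      rw [Measure.map_apply (hmeas i) hA]
      refine le_trans (le_of_eq ?_) (measure_mono (firstHit_subset_pick (R i) A))
      rw [hfh _ _ (hR i) (hA.prod MeasurableSet.univ)]
      show μ i A = (rho μ (region (dens μ i)))⁻¹ * rho μ (region (dens μ i) ∩ (A ×ˢ univ))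
      rw [rho_region_univ, rho_region μ i hA]
      simp
    have hP : IsProbabilityMeasure (P.map (pick (R i))) :=
      Measure.isProbabilityMeasure_map (hmeas i).aemeasurable
    ext A hA
    apply le_antisymm _ (hle A hA)
    have h1 := hle Aᶜ hA.compl
    rw [prob_compl_eq_one_sub hA, prob_compl_eq_one_sub hA] at h1
    have h2 : (P.map (pick (R i))) A ≤ 1 := prob_le_one
    have h3 : (μ i) A ≤ 1 := prob_le_one
    exact (ENNReal.sub_le_sub_iff_left h2 ENNReal.one_ne_top).1 h1
  · intro i j d hd0 hd1 hd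
    -- the overlap
    set a : ℝ := (rho μ).real (R i ∩ R j) with ha
    set b : ℝ := (rho μ).real (R i ∪ R j) with hb
    have h1 : 1 - d ≤ a := rho_inter_ge μ i j hd
    have h2 : a + b = 2 := by
      have e1 := measureReal_union_add_inter (μ := rho μ) (s := R i) (hR j)
      have e2 : (rho μ).real (R i) = 1 := by
        rw [measureReal_def, rho_region_univ]; simp
      have e3 : (rho μ).real (R j) = 1 := by
        rw [measureReal_def, rho_region_univ]; simp
      rw [e2, e3] at e1
      linarith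
    have h3 : a ≤ 1 := by
      have e2 : (rho μ).real (R i) = 1 := by
        rw [measureReal_def, rho_region_univ]; simp
      rw [← e2]
      exact measureReal_mono inter_subset_left
    have h4 : a / b ≤ P.real {ω | pick (R i) ω = pick (R j) ω} := by
      have e1 : P.real (firstHit (R i ∪ R j) (R i ∩ R j)) = a / b := by
        rw [measureReal_def, hfh _ _ ((hR i).union (hR j)) ((hR i).inter (hR j)),
          inter_eq_right.2 (inter_subset_left.trans subset_union_left), ENNReal.toReal_mul, ENNReal.toReal_inv,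
          mul_comm, ← div_eq_mul_inv]
        rfl
      rw [← e1]
      exact measureReal_mono (firstHit_subset_eq _ _)
    have h5 : P.real {ω | pick (R i) ω ≠ pick (R j) ω} =
        1 - P.real {ω | pick (R i) ω = pick (R j) ω} := by
      have e1 : {ω | pick (R i) ω ≠ pick (R j) ω} = {ω | pick (R i) ω = pick (R j) ω}ᶜ := rfl
      rw [e1, probReal_compl_eq_one_sub (measurableSet_eq_fun (hmeas i) (hmeas j))]
    rw [h5]
    have hb0 : 0 < b := by linarith
    have h6 : (1 - d) / (1 + d) ≤ a / b := by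
      rw [div_le_div_iff₀ (by linarith) hb0]
      nlinarith
    have h7 : 2 * d / (1 + d) = 1 - (1 - d) / (1 + d) := by
      have : (1 + d) ≠ 0 := by positivity
      field_simp
      ring
    rw [h7]
    linarith

end Pool.Agent.Lib.MP_4c6e08_pr
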