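import Mathlib

set_option autoImplicit false

/-!
Random choice of subsets: exponential moment bound.
-/

namespace Pool.Agent.Lib.MP_4c6e08_pr

open Finset

section
variable {F T V : Type*} [Fintype F] [DecidableEq F] [Fintype T] [DecidableEq T]

/-- The number of coordinates `t` at which the set `S t` avoids all the values `ev v t`, `v ∈ L`. -/
def avoid (ev : V → T → F) (L : Finset V) (S : T → Finset F) : ℕ :=
  #{t | ∀ v ∈ L, ev v t ∉ S t}

/-- All choices of an `s`-element subset for each coordinate. -/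
def choices (F T : Type*) [Fintype F] [DecidableEq F] [Fintype T] [DecidableEq T] (s : ℕ) :
    Finset (T → Finset F) :=
  Fintype.piFinset (fun _ : T => powersetCard s (univ : Finset F))

omit [DecidableEq T] [Fintype T] in
lemma card_avoid_ge (ev : V → T → F) (L : Finset V) (j s : ℕ) (hL : #L ≤ j) (t : T) :
    (Fintype.card F - j).choose s ≤
      #{A ∈ powersetCard s (univ : Finset F) | ∀ v ∈ L, ev v t ∉ A} := by
  have h1 : powersetCard s (univ \ L.image (fun v => ev v t)) ⊆
      ({A ∈ powersetCard s (univ : Finset F) | ∀ v ∈ L, ev v t ∉ A} : Finset (Finset F)) := by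
    intro A hA
    rw [mem_powersetCard] at hA
    rw [mem_filter, mem_powersetCard]
    refine ⟨⟨subset_univ _, hA.2⟩, fun v hv hvA => ?_⟩
    have := hA.1 hvA
    rw [mem_sdiff] at this
    exact this.2 (mem_image_of_mem _ hv)
  refine le_trans ?_ (card_le_card h1)
  rw [card_powersetCard, card_sdiff_of_subset (subset_univ _), card_univ]
  apply Nat.choose_le_choose
  have := card_image_le (s := L) (f := fun v => ev v t)
  omega

lemma exp_moment (ev : V → T → F) (L : Finset V) (j s : ℕ) (hL : #L ≤ j) (r lam : ℝ)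
    (hlam0 : 0 ≤ lam) (hlam1 : lam ≤ 1)
    (hr : r * ((Fintype.card F).choose s : ℝ) ≤ ((Fintype.card F - j).choose s : ℝ)) :
    ∑ S ∈ choices F T s, Real.exp (-(lam * (avoid ev L S : ℝ))) ≤
      (#(choices F T s) : ℝ) * Real.exp (-(r * (lam - lam ^ 2)) * (Fintype.card T : ℝ)) := by
  -- product form of the integrand
  have h1 : ∀ S : T → Finset F, Real.exp (-(lam * (avoid ev L S : ℝ))) =
      ∏ t, (if ∀ v ∈ L, ev v t ∉ S t then Real.exp (-lam) else 1) := by
    intro S
    rw [prod_ite, prod_const, prod_const_one, mul_one, ← Real.exp_nat_mul]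
    congr 1
    rw [avoid]
    ring
  simp_rw [h1]
  rw [choices, ← prod_univ_sum (fun _ : T => powersetCard s (univ : Finset F))
    (fun t A => if ∀ v ∈ L, ev v t ∉ A then Real.exp (-lam) else 1), Fintype.card_piFinset]
  push_cast
  rw [mul_comm, mul_comm (-(r * (lam - lam ^ 2))), Real.exp_nat_mul, ← card_univ, ← prod_const,
    ← prod_mul_distrib]
  apply prod_le_prod
  · intro t _
    apply sum_nonneg
    intro A _
    split_ifs
    · exact (Real.exp_pos _).le
    · exact zero_le_one
  · intro t _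
    -- one coordinate
    set N : ℝ := (#(powersetCard s (univ : Finset F)) : ℝ) with hN
    have hN' : N = ((Fintype.card F).choose s : ℝ) := by
      rw [hN, card_powersetCard, card_univ]
    set Q : ℝ := (#{A ∈ powersetCard s (univ : Finset F) | ∀ v ∈ L, ev v t ∉ A} : ℝ) with hQ
    have hQr : r * N ≤ Q := by
      rw [hN']
      refine hr.trans ?_
      rw [hQ]
      exact_mod_cast card_avoid_ge ev L j s hL t
    have h2 : ∑ A ∈ powersetCard s (univ : Finset F),
        (if ∀ v ∈ L, ev v t ∉ A then Real.exp (-lam) else 1) = N - Q * (1 - Real.exp (-lam)) := by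
      rw [sum_ite, sum_const, sum_const, nsmul_eq_mul, nsmul_eq_mul]
      have h3 := card_filter_add_card_filter_not (s := powersetCard s (univ : Finset F))
        (fun A => ∀ v ∈ L, ev v t ∉ A)
      have h4 : Q + (#{A ∈ powersetCard s (univ : Finset F) | ¬ ∀ v ∈ L, ev v t ∉ A} : ℝ) = N := by
        rw [hQ, hN]
        exact_mod_cast h3
      rw [← hQ]
      linarith
    rw [h2]
    have hN0 : 0 ≤ N := by positivity
    have hQ0 : 0 ≤ Q := by positivity
    have h5 : lam - lam ^ 2 ≤ 1 - Real.exp (-lam) := by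
      have h6 := Real.abs_exp_sub_one_sub_id_le (x := -lam) (by rw [abs_neg, abs_of_nonneg hlam0]; exact hlam1)
      rw [abs_le] at h6
      nlinarith [h6.2]
    have h7 : 0 ≤ lam - lam ^ 2 := by nlinarith
    have h8 : N - Q * (1 - Real.exp (-lam)) ≤ N * (1 - r * (lam - lam ^ 2)) := by
      have h9 : Q * (lam - lam ^ 2) ≤ Q * (1 - Real.exp (-lam)) :=
        mul_le_mul_of_nonneg_left h5 hQ0
      have h10 : r * N * (lam - lam ^ 2) ≤ Q * (lam - lam ^ 2) :=
        mul_le_mul_of_nonneg_right hQr h7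
      nlinarith
    refine h8.trans ?_
    rw [mul_comm]
    apply mul_le_mul_of_nonneg_right _ hN0
    have := Real.add_one_le_exp (-(r * (lam - lam ^ 2)))
    linarith

/-- The number of choices with few avoided coordinates. -/
lemma card_bad_le (ev : V → T → F) (L : Finset V) (j s : ℕ) (hL : #L ≤ j) (r θ δ : ℝ)
    (hδ0 : 0 ≤ δ) (hδ1 : δ ≤ 1) (hθ : θ + δ ≤ r) (hr1 : r ≤ 1)
    (hr : r * ((Fintype.card F).choose s : ℝ) ≤ ((Fintype.card F - j).choose s : ℝ)) :
    (#{S ∈ choices F T s | (avoid ev L S : ℝ) < θ * (Fintype.card T : ℝ)} : ℝ) ≤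
      (#(choices F T s) : ℝ) * Real.exp (-(δ ^ 2 / 4) * (Fintype.card T : ℝ)) := by
  set m : ℝ := (Fintype.card T : ℝ) with hm
  have hm0 : 0 ≤ m := by positivity
  have h1 := exp_moment ev L j s hL r (δ / 2) (by linarith) (by linarith) hr
  have h2 : (#{S ∈ choices F T s | (avoid ev L S : ℝ) < θ * m} : ℝ) *
      Real.exp (-(δ / 2 * (θ * m))) ≤
      ∑ S ∈ choices F T s, Real.exp (-(δ / 2 * (avoid ev L S : ℝ))) := by
    refine le_trans ?_ (sum_le_sum_of_subset_of_nonneg (filter_subset
      (fun S => (avoid ev L S : ℝ) < θ * m) _) (fun S _ _ => (Real.exp_pos _).le))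
    rw [← nsmul_eq_mul, ← sum_const]
    apply sum_le_sum
    intro S hS
    rw [mem_filter] at hS
    apply Real.exp_le_exp.2
    have := mul_le_mul_of_nonneg_left hS.2.le (show 0 ≤ δ / 2 by linarith)
    linarith
  have h3 := h2.trans h1
  have h4 : (#{S ∈ choices F T s | (avoid ev L S : ℝ) < θ * m} : ℝ) ≤
      ((#(choices F T s) : ℝ) * Real.exp (-(r * (δ / 2 - (δ / 2) ^ 2)) * m)) *
        Real.exp (δ / 2 * (θ * m)) := by
    rw [Real.exp_neg] at h2 h3
    have h5 : 0 < Real.exp (δ / 2 * (θ * m)) := Real.exp_pos _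
    rwa [← div_eq_mul_inv, div_le_iff₀ h5] at h3
  refine h4.trans ?_
  rw [mul_assoc, ← Real.exp_add]
  apply mul_le_mul_of_nonneg_left _ (by positivity)
  apply Real.exp_le_exp.2
  have h6 : -(r * (δ / 2 - (δ / 2) ^ 2)) + δ / 2 * θ ≤ -(δ ^ 2 / 4) := by nlinarith
  have h7 := mul_le_mul_of_nonneg_right h6 hm0
  linarith

end

end Pool.Agent.Lib.MP_4c6e08_pr
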