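import Mathlib
import Pool.Agent.Lib.MP_4c6e08_pr.Random

set_option autoImplicit false

/-!
Existence of a good choice of subsets.
-/

namespace Pool.Agent.Lib.MP_4c6e08_pr

open Finset Filter Topology

lemma pow_mul_choose_le (q J s : ℕ) (hJs : J + s ≤ q) (hq : 0 < q) (j : ℕ) (hj : j ≤ J) :
    (((q : ℝ) - J - s) / q) ^ j * (q.choose s : ℝ) ≤ ((q - j).choose s : ℝ) := by
  have hq0 : (0 : ℝ) < q := by exact_mod_cast hq
  have hJs' : (J : ℝ) + s ≤ q := by exact_mod_cast hJs
  have ha0 : 0 ≤ ((q : ℝ) - J - s) / q := div_nonneg (by linarith) hq0.le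
  induction j with
  | zero => simp
  | succ j ih =>
    have ih' := ih (by omega)
    rcases Nat.eq_zero_or_pos (q - j) with h0 | h0
    · -- then `J = q` and `s = 0`
      have hs : s = 0 := by omega
      subst hs
      simp only [Nat.choose_zero_right, Nat.cast_one, mul_one, Nat.cast_zero, sub_zero]
      have : ((q : ℝ) - J) / q ≤ 1 := by
        rw [div_le_one hq0]
        have : (0 : ℝ) ≤ J := by positivity
        linarith
      exact pow_le_one₀ (by simpa using ha0) this
    have h1 := Nat.choose_mul_succ_eq (q - (j + 1)) s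
    have h2 : q - (j + 1) + 1 = q - j := by omega
    rw [h2] at h1
    have h3 : ((q - (j + 1)).choose s : ℝ) * ((q : ℝ) - j) =
        ((q - j).choose s : ℝ) * ((q : ℝ) - j - s) := by
      have e1 : (((q - (j + 1)).choose s * (q - j) : ℕ) : ℝ) =
          (((q - j).choose s * (q - j - s) : ℕ) : ℝ) := by exact_mod_cast h1
      rw [Nat.cast_mul, Nat.cast_mul, Nat.cast_sub (by omega), Nat.cast_sub (by omega),
        Nat.cast_sub (by omega)] at e1
      exact e1
    have hqj : (0 : ℝ) < (q : ℝ) - j := by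
      have : j < q := by omega
      have : (j : ℝ) < q := by exact_mod_cast this
      linarith
    have h4 : ((q - (j + 1)).choose s : ℝ) = ((q - j).choose s : ℝ) * (((q : ℝ) - j - s) / (q - j)) := by
      rw [← mul_div_assoc, eq_div_iff hqj.ne', h3]
    rw [h4, pow_succ]
    have h5 : ((q : ℝ) - J - s) / q ≤ ((q : ℝ) - j - s) / (q - j) := by
      have hjJ : (j : ℝ) ≤ J := by
        have : j ≤ J := by omega
        exact_mod_cast this
      have hj0 : (0 : ℝ) ≤ j := by positivity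
      apply div_le_div₀ (by linarith) (by linarith) hqj (by linarith)
    calc (((q : ℝ) - J - s) / q) ^ j * (((q : ℝ) - J - s) / q) * (q.choose s : ℝ)
        = ((((q : ℝ) - J - s) / q) ^ j * (q.choose s : ℝ)) * (((q : ℝ) - J - s) / q) := by ring
      _ ≤ ((q - j).choose s : ℝ) * (((q : ℝ) - J - s) / q) :=
          mul_le_mul_of_nonneg_right ih' ha0
      _ ≤ _ := mul_le_mul_of_nonneg_left h5 (by positivity)

lemma card_small_le {V : Type*} [Fintype V] [DecidableEq V] (J : ℕ) (hV : 0 < Fintype.card V) :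
    #{L : Finset V | #L ≤ J} ≤ (J + 1) * (Fintype.card V) ^ J := by
  have h1 : ({L : Finset V | #L ≤ J} : Finset (Finset V)) ⊆
      (range (J + 1)).biUnion (fun j => powersetCard j (univ : Finset V)) := by
    intro L hL
    rw [mem_filter] at hL
    rw [mem_biUnion]
    exact ⟨#L, mem_range.2 (by omega), mem_powersetCard.2 ⟨subset_univ _, rfl⟩⟩
  refine (card_le_card h1).trans (card_biUnion_le.trans ?_)
  calc ∑ j ∈ range (J + 1), #(powersetCard j (univ : Finset V))
      ≤ ∑ j ∈ range (J + 1), (Fintype.card V) ^ J := by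
        apply sum_le_sum
        intro j hj
        rw [mem_range] at hj
        rw [card_powersetCard, card_univ]
        exact (Nat.choose_le_pow _ _).trans (Nat.pow_le_pow_right hV (by omega))
    _ = _ := by rw [sum_const, card_range, smul_eq_mul]

lemma eventually_union (J : ℕ) (c : ℝ) (hc : 0 < c) :
    ∀ᶠ q : ℕ in atTop, ((J : ℝ) + 1) * (((q : ℝ) ^ 2) ^ J) * Real.exp (-c * q) < 1 := by
  have h1 := Real.tendsto_pow_mul_exp_neg_atTop_nhds_zero (2 * J)
  have h2 : Tendsto (fun q : ℕ => c * (q : ℝ)) atTop atTop :=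
    tendsto_natCast_atTop_atTop.const_mul_atTop hc
  have h3 := (h1.comp h2).const_mul (((J : ℝ) + 1) / c ^ (2 * J))
  rw [mul_zero] at h3
  have h4 := h3.eventually (gt_mem_nhds zero_lt_one)
  filter_upwards [h4] with q hq
  refine lt_of_eq_of_lt ?_ hq
  simp only [Function.comp]
  have : c ^ (2 * J) ≠ 0 := by positivity
  rw [mul_pow, neg_mul, ← pow_mul]
  field_simp

lemma eventually_rate (J : ℕ) (y δ : ℝ) (hδ : 0 < δ) :
    ∀ᶠ q : ℕ in atTop, ∀ j ≤ J, (1 - y) ^ j - δ / 2 ≤ (1 - y - ((J : ℝ) + 1) / q) ^ j := by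
  have h0 : Tendsto (fun q : ℕ => 1 - y - ((J : ℝ) + 1) / q) atTop (𝓝 (1 - y)) := by
    have := tendsto_const_div_atTop_nhds_zero_nat ((J : ℝ) + 1)
    have h := this.const_sub (1 - y)
    rwa [sub_zero] at h
  have h1 : ∀ j ∈ range (J + 1), ∀ᶠ q : ℕ in atTop,
      (1 - y) ^ j - δ / 2 ≤ (1 - y - ((J : ℝ) + 1) / q) ^ j := by
    intro j _
    have h2 := h0.pow j
    exact (h2.eventually (lt_mem_nhds (show (1 - y) ^ j - δ / 2 < (1 - y) ^ j by linarith))).mono
      fun q hq => hq.le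
  rw [← eventually_all_finset] at h1
  filter_upwards [h1] with q hq j hj
  exact hq j (mem_range.2 (by omega))

/-- **Existence of a good choice of subsets.** -/
theorem exists_good (y δ : ℝ) (hy0 : 0 < y) (hy1 : y < 1) (hδ0 : 0 < δ) (hδ1 : δ ≤ 1) (J Q : ℕ) :
    ∃ (q : ℕ) (_ : Fact q.Prime) (s : ℕ) (S : ZMod q → Finset (ZMod q)),
      Q ≤ q ∧ y * q ≤ s ∧ (∀ t, #(S t) = s) ∧
      ∀ L : Finset (ZMod q × ZMod q), #L ≤ J →
        (#{t : ZMod q | ∃ v ∈ L, v.1 + v.2 * t ∈ S t} : ℝ) ≤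
          (1 - (1 - y) ^ (#L) + δ) * q := by
  have hy1' : 0 < 1 - y := by linarith
  -- choose a large prime
  have e1 := eventually_union J (δ ^ 2 / 16) (by positivity)
  have e2 := eventually_rate J y δ hδ0
  have e3 : ∀ᶠ q : ℕ in atTop, ((J : ℝ) + 1) / (1 - y) ≤ q :=
    tendsto_natCast_atTop_atTop.eventually_ge_atTop _
  obtain ⟨N, hN⟩ := eventually_atTop.1 (e1.and (e2.and e3))
  obtain ⟨q, hqN, hqp⟩ := Nat.exists_infinite_primes (max N Q)
  obtain ⟨hq1, hq2, hq3⟩ := hN q ((le_max_left _ _).trans hqN)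
  have hfact : Fact q.Prime := ⟨hqp⟩
  have hq0 : 0 < q := hqp.pos
  have hqR : (0 : ℝ) < q := by exact_mod_cast hq0
  set s := ⌈y * q⌉₊ with hs
  have hs1 : y * q ≤ s := Nat.le_ceil _
  have hs2 : (s : ℝ) < y * q + 1 := Nat.ceil_lt_add_one (by positivity)
  have hq3' : (J : ℝ) + 1 ≤ (1 - y) * q := by
    rw [div_le_iff₀ hy1'] at hq3
    linarith
  have hJs : J + s ≤ q := by
    have : ((J + s : ℕ) : ℝ) < q + 1 := by
      push_cast
      nlinarith
    have : J + s < q + 1 := by exact_mod_cast this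
    omega
  have hcardF : Fintype.card (ZMod q) = q := ZMod.card q
  let ev : ZMod q × ZMod q → ZMod q → ZMod q := fun v t => v.1 + v.2 * t
  let Ω := choices (ZMod q) (ZMod q) s
  have hΩ : 0 < #Ω := by
    show 0 < #(Fintype.piFinset (fun _ : ZMod q => powersetCard s (univ : Finset (ZMod q))))
    rw [Fintype.card_piFinset]
    apply prod_pos
    intro t _
    rw [card_powersetCard, card_univ, hcardF]
    exact Nat.choose_pos (by omega)
  -- bad events
  let bad : Finset (ZMod q × ZMod q) → Finset (ZMod q → Finset (ZMod q)) := fun L =>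
    {S ∈ Ω | (avoid ev L S : ℝ) < ((1 - y) ^ (#L) - δ) * (Fintype.card (ZMod q) : ℝ)}
  have hbad : ∀ L : Finset (ZMod q × ZMod q), #L ≤ J →
      (#(bad L) : ℝ) ≤ (#Ω : ℝ) * Real.exp (-(δ ^ 2 / 16) * q) := by
    intro L hL
    set r : ℝ := (((q : ℝ) - J - s) / q) ^ (#L) with hr
    have ha0 : 0 ≤ ((q : ℝ) - J - s) / q := by
      have : (J : ℝ) + s ≤ q := by exact_mod_cast hJs
      exact div_nonneg (by linarith) hqR.le
    have ha1 : ((q : ℝ) - J - s) / q ≤ 1 := by
      rw [div_le_one hqR]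
      have h1 : (0 : ℝ) ≤ J := by positivity
      have h2 : (0 : ℝ) ≤ s := by positivity
      linarith
    have hr1 : r ≤ 1 := pow_le_one₀ ha0 ha1
    have hr2 : r * ((Fintype.card (ZMod q)).choose s : ℝ) ≤
        ((Fintype.card (ZMod q) - #L).choose s : ℝ) := by
      rw [hcardF]
      exact pow_mul_choose_le q J s hJs hq0 _ hL
    have hr3 : (1 - y) ^ (#L) - δ / 2 ≤ r := by
      refine (hq2 _ hL).trans ?_
      apply pow_le_pow_left₀
      · have : ((J : ℝ) + 1) / q ≤ 1 - y := by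
          rw [div_le_iff₀ hqR]
          exact hq3'
        linarith
      · rw [le_div_iff₀ hqR]
        have : (1 - y - ((J : ℝ) + 1) / q) * q = (1 - y) * q - ((J : ℝ) + 1) := by
          field_simp
        rw [this]
        linarith
    have h := card_bad_le ev L (#L) s le_rfl r ((1 - y) ^ (#L) - δ) (δ / 2) (by linarith)
      (by linarith) (by linarith) hr1 hr2
    refine h.trans (le_of_eq ?_)
    rw [hcardF]
    congr 2
    ring
  -- union bound
  let Bad : Finset (ZMod q → Finset (ZMod q)) :=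
    ({L : Finset (ZMod q × ZMod q) | #L ≤ J} : Finset _).biUnion bad
  have hV : Fintype.card (ZMod q × ZMod q) = q ^ 2 := by
    rw [Fintype.card_prod, hcardF, sq]
  have hlt : #Bad < #Ω := by
    have h1 : (#Bad : ℝ) ≤ (((J : ℝ) + 1) * (((q : ℝ) ^ 2) ^ J)) *
        ((#Ω : ℝ) * Real.exp (-(δ ^ 2 / 16) * q)) := by
      have h2 : (#Bad : ℝ) ≤ ∑ L ∈ ({L : Finset (ZMod q × ZMod q) | #L ≤ J} : Finset _),
          (#(bad L) : ℝ) := by
        exact_mod_cast card_biUnion_le
      refine h2.trans ((sum_le_sum fun L hL => hbad L (mem_filter.1 hL).2).trans ?_)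
      rw [sum_const, nsmul_eq_mul]
      apply mul_le_mul_of_nonneg_right _ (by positivity)
      have h3 := card_small_le (V := ZMod q × ZMod q) J (by rw [hV]; positivity)
      rw [hV] at h3
      exact_mod_cast h3
    have h4 : (#Bad : ℝ) < #Ω := by
      refine lt_of_le_of_lt h1 ?_
      have h5 : (0 : ℝ) < #Ω := by exact_mod_cast hΩ
      calc (((J : ℝ) + 1) * (((q : ℝ) ^ 2) ^ J)) * ((#Ω : ℝ) * Real.exp (-(δ ^ 2 / 16) * q))
          = (((J : ℝ) + 1) * (((q : ℝ) ^ 2) ^ J) * Real.exp (-(δ ^ 2 / 16) * q)) * (#Ω : ℝ) := by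
            ring
        _ < 1 * (#Ω : ℝ) := mul_lt_mul_of_pos_right hq1 h5
        _ = #Ω := one_mul _
    exact_mod_cast h4
  obtain ⟨S, hS, hSB⟩ := exists_mem_notMem_of_card_lt_card hlt
  refine ⟨q, hfact, s, S, (le_max_right _ _).trans hqN, hs1, ?_, ?_⟩
  · intro t
    have := (Fintype.mem_piFinset.1 hS) t
    exact (mem_powersetCard.1 this).2
  · intro L hL
    have h1 : S ∉ bad L := by
      intro h
      exact hSB (mem_biUnion.2 ⟨L, mem_filter.2 ⟨mem_univ _, hL⟩, h⟩)
    have h2 : ((1 - y) ^ (#L) - δ) * (q : ℝ) ≤ (avoid ev L S : ℝ) := by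
      by_contra hcon
      push Not at hcon
      exact h1 (mem_filter.2 ⟨hS, by rw [hcardF]; exact hcon⟩)
    have h3 : #{t : ZMod q | ∃ v ∈ L, v.1 + v.2 * t ∈ S t} + avoid ev L S = q := by
      have h4 := card_filter_add_card_filter_not (s := (univ : Finset (ZMod q)))
        (fun t => ∃ v ∈ L, v.1 + v.2 * t ∈ S t)
      rw [card_univ, hcardF] at h4
      refine Eq.trans ?_ h4
      rw [avoid]
      congr 2
      ext t
      simp [ev]
    have h5 : (#{t : ZMod q | ∃ v ∈ L, v.1 + v.2 * t ∈ S t} : ℝ) + (avoid ev L S : ℝ) = q := by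
      exact_mod_cast h3
    nlinarith

end Pool.Agent.Lib.MP_4c6e08_pr
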