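import Mathlib

set_option autoImplicit false

/-!
The majorisation bound for the sum of squares of class sizes.
-/

namespace Pool.Agent.Lib.MP_4c6e08_pr

open Finset

/-- Abel summation inequality. -/
lemma abel_le {g h : ℕ → ℝ} (hg : Antitone g) (hg0 : ∀ i, 0 ≤ g i) (J : ℕ)
    (hh : ∀ k ≤ J, ∑ i ∈ range k, h i ≤ 0) : ∑ i ∈ range J, g i * h i ≤ 0 := by
  have key : ∀ k, k + 1 ≤ J → ∑ i ∈ range (k + 1), g i * h i ≤ g k * ∑ i ∈ range (k + 1), h i := by
    intro k
    induction k with
    | zero => intro _; simp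
    | succ k ih =>
      intro hk
      have h1 := ih (by omega)
      rw [sum_range_succ, sum_range_succ (f := h)]
      have h2 := hh (k + 1) (by omega)
      have h3 : g (k + 1) ≤ g k := hg (Nat.le_succ k)
      nlinarith
  rcases J with _ | J
  · simp
  · have h1 := key J le_rfl
    have h2 := hh (J + 1) le_rfl
    have h3 := hg0 J
    nlinarith

/-- Sorting a finite family of nonnegative reals. -/
lemma exists_sorted {V : Type*} [Fintype V] [DecidableEq V] (a : V → ℝ) (ha : ∀ v, 0 ≤ a v) :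
    ∃ α : ℕ → ℝ, Antitone α ∧ (∀ i, 0 ≤ α i) ∧
      (∀ k, ∃ L : Finset V, #L ≤ k ∧ ∑ i ∈ range k, α i = ∑ v ∈ L, a v) ∧
      (∃ N, ∀ φ : ℝ → ℝ, ∑ v, φ (a v) = ∑ i ∈ range N, φ (α i)) := by
  classical
  set N := Fintype.card V with hN
  let e0 : Fin N ≃ V := (Fintype.equivFin V).symm
  let f : Fin N → ℝ := fun i => -(a (e0 i))
  let e : Fin N ≃ V := (Tuple.sort f).trans e0
  have hmono : ∀ i j : Fin N, i ≤ j → a (e j) ≤ a (e i) := by
    intro i j hij
    have h := Tuple.monotone_sort f hij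
    simp only [Function.comp, f] at h
    show a (e0 (Tuple.sort f j)) ≤ a (e0 (Tuple.sort f i))
    linarith
  let α : ℕ → ℝ := fun i => if h : i < N then a (e ⟨i, h⟩) else 0
  have hα0 : ∀ i, 0 ≤ α i := by
    intro i
    show 0 ≤ (if h : i < N then a (e ⟨i, h⟩) else 0)
    split_ifs
    · exact ha _
    · exact le_rfl
  refine ⟨α, ?_, hα0, ?_, N, ?_⟩
  · intro i j hij
    show (if h : j < N then a (e ⟨j, h⟩) else 0) ≤ (if h : i < N then a (e ⟨i, h⟩) else 0)
    by_cases hj : j < N
    · rw [dif_pos hj, dif_pos (lt_of_le_of_lt hij hj)]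
      exact hmono _ _ hij
    · rw [dif_neg hj]
      exact hα0 i
  · intro k
    refine ⟨({i : Fin N | i.val < k} : Finset (Fin N)).map e.toEmbedding, ?_, ?_⟩
    · rw [card_map]
      calc #({i : Fin N | i.val < k} : Finset (Fin N))
          = #(({i : Fin N | i.val < k} : Finset (Fin N)).map Fin.valEmbedding) := by rw [card_map]
        _ ≤ #(range k) := by
            apply card_le_card
            intro x hx
            rw [mem_map] at hx
            obtain ⟨i, hi, rfl⟩ := hx
            rw [mem_filter] at hi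
            exact mem_range.2 hi.2
        _ = k := card_range k
    · rw [sum_map, sum_filter]
      have h1 := Finset.sum_fin_eq_sum_range (n := N)
        (fun i : Fin N => if i.val < k then a (e.toEmbedding i) else 0)
      rw [h1]
      have h2 : ∀ i ∈ range N, (if h : i < N then
          (if (⟨i, h⟩ : Fin N).val < k then a (e.toEmbedding ⟨i, h⟩) else 0) else 0) =
          if i < k then α i else 0 := by
        intro i hi
        rw [mem_range] at hi
        rw [dif_pos hi]
        show (if i < k then a (e ⟨i, hi⟩) else 0) =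
          (if i < k then (if h : i < N then a (e ⟨i, h⟩) else 0) else 0)
        rw [dif_pos hi]
      rw [sum_congr rfl h2, ← sum_filter]
      symm
      apply sum_subset_zero_on_sdiff
      · intro i hi
        rw [mem_filter] at hi
        exact mem_range.2 hi.2
      · intro i hi
        rw [mem_sdiff, mem_filter, mem_range, mem_range] at hi
        have : ¬ i < N := fun h => hi.2 ⟨h, hi.1⟩
        show (if h : i < N then a (e ⟨i, h⟩) else 0) = 0
        rw [dif_neg this]
      · intro i _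
        rfl
  · intro φ
    rw [← e.sum_comp, Finset.sum_fin_eq_sum_range]
    apply sum_congr rfl
    intro i hi
    rw [mem_range] at hi
    rw [dif_pos hi]
    show φ (a (e ⟨i, hi⟩)) = φ (if h : i < N then a (e ⟨i, h⟩) else 0)
    rw [dif_pos hi]

/-- **The majorisation bound.** -/
lemma sum_sq_le {V : Type*} [Fintype V] [DecidableEq V] (a : V → ℝ) (ha : ∀ v, 0 ≤ a v)
    (y δ M : ℝ) (hy0 : 0 < y) (hy1 : y < 1) (hδ : 0 ≤ δ) (hM : 0 ≤ M) (J : ℕ) (hJ : 0 < J)
    (htot : ∑ v, a v ≤ M)
    (hcov : ∀ L : Finset V, #L ≤ J → ∑ v ∈ L, a v ≤ (1 - (1 - y) ^ (#L) + δ) * M) :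
    ∑ v, a v ^ 2 ≤ (y / (2 - y) + 2 * δ + δ ^ 2 + 1 / J) * M ^ 2 := by
  obtain ⟨α, hα, hα0, hpart, N, hsum⟩ := exists_sorted a ha
  have hJR : (0 : ℝ) < J := by exact_mod_cast hJ
  have h1y : 0 < 1 - y := by linarith
  -- partial sums
  have hP : ∀ k, ∑ i ∈ range k, α i ≤ M := by
    intro k
    obtain ⟨L, -, hL⟩ := hpart k
    rw [hL]
    exact (sum_le_sum_of_subset_of_nonneg (subset_univ _) (fun v _ _ => ha v)).trans htot
  have hQ : ∀ k ≤ J, ∑ i ∈ range k, α i ≤ (1 - (1 - y) ^ k + δ) * M := by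
    intro k hk
    obtain ⟨L, hLk, hL⟩ := hpart k
    rw [hL]
    refine (hcov L (hLk.trans hk)).trans ?_
    apply mul_le_mul_of_nonneg_right _ hM
    have := pow_le_pow_of_le_one h1y.le (by linarith) hLk
    linarith
  -- the comparison sequence
  let b : ℕ → ℝ := fun i => (y * (1 - y) ^ i + if i = 0 then δ else 0) * M
  have hb0 : ∀ i, 0 ≤ b i := by
    intro i
    apply mul_nonneg _ hM
    apply add_nonneg (by positivity)
    split_ifs
    · exact hδ
    · exact le_rfl
  have hb : Antitone b := by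
    apply antitone_nat_of_succ_le
    intro i
    apply mul_le_mul_of_nonneg_right _ hM
    have h1 : (1 - y) ^ (i + 1) ≤ (1 - y) ^ i :=
      pow_le_pow_of_le_one h1y.le (by linarith) (Nat.le_succ i)
    have h2 : y * (1 - y) ^ (i + 1) ≤ y * (1 - y) ^ i := mul_le_mul_of_nonneg_left h1 hy0.le
    rw [if_neg (Nat.succ_ne_zero i)]
    split_ifs
    · linarith
    · linarith
  have hbsum : ∀ k, 0 < k → ∑ i ∈ range k, b i = (1 - (1 - y) ^ k + δ) * M := by
    intro k hk
    obtain ⟨k, rfl⟩ : ∃ l, k = l + 1 := ⟨k - 1, by omega⟩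
    induction k with
    | zero => simp [b]
    | succ k ih =>
      rw [sum_range_succ, ih (Nat.succ_pos k)]
      simp only [b, Nat.succ_ne_zero, if_false, add_zero]
      ring
  have hpartial : ∀ k ≤ J, ∑ i ∈ range k, (α i - b i) ≤ 0 := by
    intro k hk
    rcases Nat.eq_zero_or_pos k with rfl | hk0
    · simp
    · rw [sum_sub_distrib, hbsum k hk0]
      linarith [hQ k hk]
  have h1 := abel_le hα hα0 J hpartial
  have h2 := abel_le hb hb0 J hpartial
  have h3 : ∑ i ∈ range J, α i ^ 2 ≤ ∑ i ∈ range J, b i ^ 2 := by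
    have e1 : ∑ i ∈ range J, α i ^ 2 - ∑ i ∈ range J, b i ^ 2 =
        ∑ i ∈ range J, α i * (α i - b i) + ∑ i ∈ range J, b i * (α i - b i) := by
      rw [← sum_sub_distrib, ← sum_add_distrib]
      apply sum_congr rfl
      intro i _
      ring
    linarith
  -- the sum of squares of the comparison sequence
  have h4 : ∑ i ∈ range J, b i ^ 2 ≤ (y / (2 - y) + 2 * δ + δ ^ 2) * M ^ 2 := by
    have e1 : ∀ i, b i ^ 2 = (y ^ 2 * ((1 - y) ^ 2) ^ i +
        if i = 0 then 2 * y * δ + δ ^ 2 else 0) * M ^ 2 := by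
      intro i
      by_cases hi : i = 0
      · simp only [b, hi, if_true, pow_zero]
        ring
      · simp only [b, hi, if_false, add_zero]
        rw [← pow_mul, mul_comm 2 i, pow_mul]
        ring
    simp_rw [e1]
    rw [← sum_mul]
    apply mul_le_mul_of_nonneg_right _ (by positivity)
    rw [sum_add_distrib, ← mul_sum]
    have e2 : (∑ i ∈ range J, ((1 - y) ^ 2) ^ i) * (1 - (1 - y) ^ 2) ≤ 1 := by
      rw [geom_sum_mul_neg]
      have : 0 ≤ ((1 - y) ^ 2) ^ J := by positivity
      linarith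
    have e3 : 1 - (1 - y) ^ 2 = y * (2 - y) := by ring
    rw [e3] at e2
    have e4 : y ^ 2 * ∑ i ∈ range J, ((1 - y) ^ 2) ^ i ≤ y / (2 - y) := by
      rw [le_div_iff₀ (by linarith)]
      calc (y ^ 2 * ∑ i ∈ range J, ((1 - y) ^ 2) ^ i) * (2 - y)
          = y * ((∑ i ∈ range J, ((1 - y) ^ 2) ^ i) * (y * (2 - y))) := by ring
        _ ≤ y * 1 := mul_le_mul_of_nonneg_left e2 hy0.le
        _ = y := mul_one y
    have e5 : ∑ i ∈ range J, (if i = 0 then 2 * y * δ + δ ^ 2 else 0) = 2 * y * δ + δ ^ 2 := by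
      rw [sum_ite_eq' (range J) 0 (fun _ => 2 * y * δ + δ ^ 2), if_pos (mem_range.2 hJ)]
    rw [e5]
    nlinarith
  -- the tail
  have h5 : ∀ i, J ≤ i → α i ≤ M / J := by
    intro i hi
    rw [le_div_iff₀ hJR]
    calc α i * J = ∑ _k ∈ range J, α i := by rw [sum_const, card_range, nsmul_eq_mul]; ring
      _ ≤ ∑ k ∈ range J, α k := by
          apply sum_le_sum
          intro k hk
          rw [mem_range] at hk
          exact hα (by omega)
      _ ≤ M := hP J
  have h6 := hsum (fun x => x ^ 2)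
  rw [h6]
  have h7 : ∑ i ∈ range N, α i ^ 2 ≤ ∑ i ∈ range J, α i ^ 2 + ∑ i ∈ range N, α i * (M / J) := by
    have e1 : ∀ i ∈ range N, α i ^ 2 ≤ (if i < J then α i ^ 2 else 0) + α i * (M / J) := by
      intro i _
      by_cases hi : i < J
      · rw [if_pos hi]
        have : 0 ≤ α i * (M / J) := mul_nonneg (hα0 i) (by positivity)
        linarith
      · rw [if_neg hi]
        have := h5 i (by omega)
        nlinarith [hα0 i]
    refine (sum_le_sum e1).trans ?_
    rw [sum_add_distrib]
    gcongr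
    rw [← sum_filter]
    apply sum_le_sum_of_subset_of_nonneg
    · intro i hi
      rw [mem_filter] at hi
      exact mem_range.2 hi.2
    · intro i _ _
      positivity
  have h8 : ∑ i ∈ range N, α i * (M / J) ≤ (1 / J) * M ^ 2 := by
    rw [← sum_mul]
    calc (∑ i ∈ range N, α i) * (M / J) ≤ M * (M / J) :=
          mul_le_mul_of_nonneg_right (hP N) (by positivity)
      _ = _ := by ring
  calc ∑ i ∈ range N, α i ^ 2 ≤ ∑ i ∈ range J, α i ^ 2 + ∑ i ∈ range N, α i * (M / J) := h7
    _ ≤ (y / (2 - y) + 2 * δ + δ ^ 2) * M ^ 2 + (1 / J) * M ^ 2 := by linarith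
    _ = _ := by ring

end Pool.Agent.Lib.MP_4c6e08_pr
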