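import Mathlib
import Pool.Agent.Lib.MP_4c6e08_pr.Major
import Pool.Agent.Lib.MP_4c6e08_pr.Atomic

set_option autoImplicit false

/-!
The laws built from a good choice of subsets, and the bound on the agreements in any coupling.
-/

namespace Pool.Agent.Lib.MP_4c6e08_pr

open MeasureTheory Finset

section
variable {q : ℕ} [Fact q.Prime]

/-- The masses of the `t`-th law. -/
def mass (w : ℝ) (s : ℕ) (S : ZMod q → Finset (ZMod q)) (t : ZMod q) :
    (ZMod q × ZMod q) ⊕ ZMod q → ℝ
  | Sum.inl v => if v.1 + v.2 * t ∈ S t then w else 0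
  | Sum.inr u => if u = t then 1 - w * (q * s) else 0

lemma count_one (S : Finset (ZMod q)) (t : ZMod q) :
    #{v : ZMod q × ZMod q | v.1 + v.2 * t ∈ S} = q * #S := by
  have h1 : #{v : ZMod q × ZMod q | v.1 + v.2 * t ∈ S} =
      ∑ v : ZMod q × ZMod q, if v.1 + v.2 * t ∈ S then 1 else 0 := by
    rw [card_filter]
  rw [h1, Fintype.sum_prod_type_right]
  have h2 : ∀ b : ZMod q, ∑ a : ZMod q, (if a + b * t ∈ S then 1 else 0) = #S := by
    intro b
    have h3 := Equiv.sum_comp (Equiv.addRight (b * t)) (fun c => if c ∈ S then (1 : ℕ) else 0)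
    refine Eq.trans h3 ?_
    simp
  simp_rw [h2]
  rw [sum_const, card_univ, ZMod.card, smul_eq_mul]

lemma count_two (S S' : Finset (ZMod q)) {t t' : ZMod q} (ht : t ≠ t') :
    #{v : ZMod q × ZMod q | v.1 + v.2 * t ∈ S ∧ v.1 + v.2 * t' ∈ S'} = #S * #S' := by
  have hinj : Function.Injective
      (fun v : ZMod q × ZMod q => (v.1 + v.2 * t, v.1 + v.2 * t')) := by
    rintro ⟨a, b⟩ ⟨a', b'⟩ h
    simp only [Prod.mk.injEq] at h
    obtain ⟨h1, h2⟩ := h
    have h3 : (b - b') * (t - t') = 0 := by linear_combination h1 - h2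
    rcases mul_eq_zero.1 h3 with h4 | h4
    · have hb : b = b' := sub_eq_zero.1 h4
      subst hb
      have ha : a = a' := by linear_combination h1
      rw [ha]
    · exact absurd (sub_eq_zero.1 h4) ht
  have hbij := Finite.injective_iff_bijective.1 hinj
  let e := Equiv.ofBijective _ hbij
  have h1 : #{v : ZMod q × ZMod q | v.1 + v.2 * t ∈ S ∧ v.1 + v.2 * t' ∈ S'} =
      #(S ×ˢ S') := by
    apply card_bij (fun v _ => e v)
    · intro v hv
      rw [mem_filter] at hv
      exact mem_product.2 hv.2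
    · intro v _ v' _ h
      exact e.injective h
    · intro c hc
      refine ⟨e.symm c, ?_, e.apply_symm_apply c⟩
      have h2 : e (e.symm c) ∈ S ×ˢ S' := by rw [e.apply_symm_apply]; exact hc
      rw [mem_filter]
      exact ⟨mem_univ _, mem_product.1 h2⟩
  rw [h1, card_product]

variable {w : ℝ} {s : ℕ} {S : ZMod q → Finset (ZMod q)}

lemma mass_nonneg (hw : 0 ≤ w) (hw1 : w * (q * s) ≤ 1) (t : ZMod q) (z) :
    0 ≤ mass w s S t z := by
  rcases z with v | u
  · simp only [mass]
    split_ifs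
    · exact hw
    · exact le_rfl
  · simp only [mass]
    split_ifs
    · linarith
    · exact le_rfl

lemma mass_sum (hS : ∀ t, #(S t) = s) (t : ZMod q) : ∑ z, mass w s S t z = 1 := by
  rw [Fintype.sum_sum_type]
  have h1 : ∑ v : ZMod q × ZMod q, mass w s S t (Sum.inl v) = w * (q * s) := by
    show ∑ v : ZMod q × ZMod q, (if v.1 + v.2 * t ∈ S t then w else 0) = w * (q * s)
    rw [← sum_filter, sum_const, nsmul_eq_mul, count_one, hS]
    push_cast
    ring
  have h2 : ∑ u : ZMod q, mass w s S t (Sum.inr u) = 1 - w * (q * s) := by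
    show ∑ u : ZMod q, (if u = t then 1 - w * (q * s) else 0) = 1 - w * (q * s)
    rw [sum_ite_eq' univ t, if_pos (mem_univ t)]
  rw [h1, h2]
  ring

lemma mass_overlap (hw : 0 ≤ w) (hw1 : w * (q * s) ≤ 1) (hS : ∀ t, #(S t) = s) {t t' : ZMod q}
    (ht : t ≠ t') : ∑ z, min (mass w s S t z) (mass w s S t' z) = w * s ^ 2 := by
  rw [Fintype.sum_sum_type]
  have h1 : ∑ v : ZMod q × ZMod q, min (mass w s S t (Sum.inl v)) (mass w s S t' (Sum.inl v)) =
      w * s ^ 2 := by
    have e : ∀ v : ZMod q × ZMod q, min (mass w s S t (Sum.inl v)) (mass w s S t' (Sum.inl v)) =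
        if v.1 + v.2 * t ∈ S t ∧ v.1 + v.2 * t' ∈ S t' then w else 0 := by
      intro v
      show min (if v.1 + v.2 * t ∈ S t then w else 0) (if v.1 + v.2 * t' ∈ S t' then w else 0) = _
      by_cases h : v.1 + v.2 * t ∈ S t <;> by_cases h' : v.1 + v.2 * t' ∈ S t' <;>
        simp [h, h', hw]
    simp_rw [e]
    rw [← sum_filter, sum_const, nsmul_eq_mul, count_two _ _ ht, hS, hS]
    push_cast
    ring
  have h2 : ∑ u : ZMod q, min (mass w s S t (Sum.inr u)) (mass w s S t' (Sum.inr u)) = 0 := by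
    apply sum_eq_zero
    intro u _
    show min (if u = t then 1 - w * (q * s) else 0) (if u = t' then 1 - w * (q * s) else 0) = 0
    by_cases h : u = t
    · have h' : ¬ u = t' := fun h' => ht (h.symm.trans h')
      rw [if_pos h, if_neg h']
      exact min_eq_right (by linarith)
    · rw [if_neg h]
      apply min_eq_left
      split_ifs
      · linarith
      · exact le_rfl
  rw [h1, h2, add_zero]

/-- Agreements are bounded for every outcome in the supports. -/
lemma agree_le (ι : (ZMod q × ZMod q) ⊕ ZMod q → ℝ) (hι : Function.Injective ι)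
    (y δ : ℝ) (hy0 : 0 < y) (hy1 : y < 1) (hδ : 0 ≤ δ) (J : ℕ) (hJ : 0 < J)
    (hcov : ∀ L : Finset (ZMod q × ZMod q), #L ≤ J →
      (#{t : ZMod q | ∃ v ∈ L, v.1 + v.2 * t ∈ S t} : ℝ) ≤ (1 - (1 - y) ^ (#L) + δ) * q)
    (x : ZMod q → ℝ) (hx : ∀ t, ∃ z, x t = ι z ∧ 0 < mass w s S t z) :
    (#{p : ZMod q × ZMod q | p.1 ≠ p.2 ∧ x p.1 = x p.2} : ℝ) ≤
      (y / (2 - y) + 2 * δ + δ ^ 2 + 1 / J) * (q : ℝ) ^ 2 := by
  classical
  let cls : ZMod q × ZMod q → Finset (ZMod q) := fun v => {t | x t = ι (Sum.inl v)}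
  have hcls : ∀ v t, t ∈ cls v → v.1 + v.2 * t ∈ S t := by
    intro v t ht
    have ht' : x t = ι (Sum.inl v) := (mem_filter.1 ht).2
    obtain ⟨z, hz1, hz2⟩ := hx t
    have hz : z = Sum.inl v := hι (hz1.symm.trans ht')
    subst hz
    by_contra h
    have : mass w s S t (Sum.inl v) = 0 := if_neg h
    rw [this] at hz2
    exact lt_irrefl _ hz2
  have hdisj : ∀ L : Finset (ZMod q × ZMod q), (L : Set (ZMod q × ZMod q)).PairwiseDisjoint cls := by
    intro L v _ v' _ hvv'
    rw [Function.onFun, Finset.disjoint_left]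
    intro t ht ht'
    have h1 : x t = ι (Sum.inl v) := (mem_filter.1 ht).2
    have h2 : x t = ι (Sum.inl v') := (mem_filter.1 ht').2
    exact hvv' (Sum.inl_injective (hι (h1.symm.trans h2)))
  have hLsum : ∀ L : Finset (ZMod q × ZMod q), ∑ v ∈ L, (#(cls v) : ℝ) = #(L.biUnion cls) := by
    intro L
    rw [card_biUnion (hdisj L)]
    push_cast
    rfl
  have hmain := sum_sq_le (fun v => (#(cls v) : ℝ)) (fun v => by positivity) y δ q hy0 hy1 hδ
    (by positivity) J hJ (by
      rw [hLsum]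
      have : #(univ.biUnion cls) ≤ q := by
        calc #(univ.biUnion cls) ≤ #(univ : Finset (ZMod q)) := card_le_card (subset_univ _)
          _ = q := by rw [card_univ, ZMod.card]
      exact_mod_cast this) (by
      intro L hL
      rw [hLsum]
      refine le_trans ?_ (hcov L hL)
      have : #(L.biUnion cls) ≤ #{t : ZMod q | ∃ v ∈ L, v.1 + v.2 * t ∈ S t} := by
        apply card_le_card
        intro t ht
        rw [mem_biUnion] at ht
        obtain ⟨v, hv, htv⟩ := ht
        exact mem_filter.2 ⟨mem_univ _, v, hv, hcls v t htv⟩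
      exact_mod_cast this)
  refine le_trans ?_ hmain
  have hsub : ({p : ZMod q × ZMod q | p.1 ≠ p.2 ∧ x p.1 = x p.2} : Finset _) ⊆
      (univ : Finset (ZMod q × ZMod q)).biUnion (fun v => cls v ×ˢ cls v) := by
    rintro ⟨t, t'⟩ hp
    rw [mem_filter] at hp
    obtain ⟨-, hne, heq⟩ := hp
    obtain ⟨z, hz1, hz2⟩ := hx t
    obtain ⟨z', hz1', hz2'⟩ := hx t'
    have hzz : z = z' := hι (hz1.symm.trans (heq.trans hz1'))
    subst hzz
    rcases z with v | u
    · rw [mem_biUnion]
      exact ⟨v, mem_univ _, mem_product.2 ⟨mem_filter.2 ⟨mem_univ _, hz1⟩,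
        mem_filter.2 ⟨mem_univ _, hz1'⟩⟩⟩
    · exfalso
      have h1 : u = t := by
        by_contra h
        have : mass w s S t (Sum.inr u) = 0 := if_neg h
        rw [this] at hz2
        exact lt_irrefl _ hz2
      have h2 : u = t' := by
        by_contra h
        have : mass w s S t' (Sum.inr u) = 0 := if_neg h
        rw [this] at hz2'
        exact lt_irrefl _ hz2'
      exact hne (h1.symm.trans h2)
  have hcard := (card_le_card hsub).trans card_biUnion_le
  have h2 : ∀ v : ZMod q × ZMod q, #(cls v ×ˢ cls v) = #(cls v) ^ 2 := by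
    intro v
    rw [card_product, sq]
  simp_rw [h2] at hcard
  exact_mod_cast hcard

/-- **The bound on agreements in any coupling.** -/
theorem coupling_bound (ι : (ZMod q × ZMod q) ⊕ ZMod q → ℝ) (hι : Function.Injective ι)
    (y δ : ℝ) (hy0 : 0 < y) (hy1 : y < 1) (hδ : 0 ≤ δ) (J : ℕ) (hJ : 0 < J)
    (hw : 0 ≤ w) (hw1 : w * (q * s) ≤ 1) (hS : ∀ t, #(S t) = s)
    (hcov : ∀ L : Finset (ZMod q × ZMod q), #L ≤ J →
      (#{t : ZMod q | ∃ v ∈ L, v.1 + v.2 * t ∈ S t} : ℝ) ≤ (1 - (1 - y) ^ (#L) + δ) * q)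
    {Ω : Type} [MeasurableSpace Ω] (P : Measure Ω) [IsProbabilityMeasure P]
    (X : ZMod q → Ω → ℝ) (hX : ∀ t, Measurable (X t))
    (hlaw : ∀ t, P.map (X t) = atomic (mass w s S t) ι) (c : ℝ)
    (hc : ∀ t t', t ≠ t' → c ≤ P.real {ω | X t ω = X t' ω}) :
    (q : ℝ) * (q - 1) * c ≤ (y / (2 - y) + 2 * δ + δ ^ 2 + 1 / J) * (q : ℝ) ^ 2 := by
  classical
  set K := (y / (2 - y) + 2 * δ + δ ^ 2 + 1 / J) * (q : ℝ) ^ 2 with hK
  have hq1 : 1 ≤ q := (Fact.out : q.Prime).one_lt.le
  -- almost surely all values are in the supports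
  have hsupp : ∀ t, ∀ᵐ ω ∂P, ∃ z, X t ω = ι z ∧ 0 < mass w s S t z := by
    intro t
    have hm := mass_nonneg (S := S) hw hw1 t
    have hA : MeasurableSet {r : ℝ | ∃ z, r = ι z ∧ 0 < mass w s S t z} := by
      apply Set.Finite.measurableSet
      apply (Set.toFinite (Set.range ι)).subset
      rintro r ⟨z, rfl, -⟩
      exact ⟨z, rfl⟩
    have h1 : (P.map (X t)).real {r : ℝ | ∃ z, r = ι z ∧ 0 < mass w s S t z} = 1 := by
      rw [hlaw t, atomic_real _ hm, ← mass_sum (w := w) hS t]
      apply sum_congr rfl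
      intro z _
      by_cases hz : 0 < mass w s S t z
      · rw [if_pos ⟨z, rfl, hz⟩]
      · have hz0 : mass w s S t z = 0 := le_antisymm (not_lt.1 hz) (hm z)
        rw [hz0, ite_self]
    rw [map_measureReal_apply (hX t) hA] at h1
    have h2 : P.real (X t ⁻¹' {r : ℝ | ∃ z, r = ι z ∧ 0 < mass w s S t z})ᶜ = 0 := by
      rw [probReal_compl_eq_one_sub (hX t hA), h1, sub_self]
    rw [measureReal_eq_zero_iff] at h2
    exact h2
  have hall : ∀ᵐ ω ∂P, ∀ t, ∃ z, X t ω = ι z ∧ 0 < mass w s S t z := ae_all_iff.2 hsupp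
  -- the number of agreements
  let I : Finset (ZMod q × ZMod q) := {p | p.1 ≠ p.2}
  have hI : (#I : ℝ) = q * (q - 1) := by
    have h1 : #I + q = q * q := by
      have h2 := card_filter_add_card_filter_not (s := (univ : Finset (ZMod q × ZMod q)))
        (fun p => p.1 ≠ p.2)
      have h3 : #{p : ZMod q × ZMod q | ¬ p.1 ≠ p.2} = q := by
        have h4 : ({p : ZMod q × ZMod q | ¬ p.1 ≠ p.2} : Finset _) =
            (univ : Finset (ZMod q)).map ⟨fun t => (t, t), fun a b h => (Prod.mk.inj h).1⟩ := by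
          ext ⟨a, b⟩
          rw [mem_filter, mem_map]
          constructor
          · rintro ⟨-, h⟩
            have h' : a = b := not_not.1 h
            subst h'
            exact ⟨a, mem_univ _, rfl⟩
          · rintro ⟨t, -, h⟩
            have ha : t = a := congrArg Prod.fst h
            have hb : t = b := congrArg Prod.snd h
            exact ⟨mem_univ _, not_not.2 (ha.symm.trans hb)⟩
        rw [h4, card_map, card_univ, ZMod.card]
      have h5 : #(univ : Finset (ZMod q × ZMod q)) = q * q := by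
        rw [card_univ, Fintype.card_prod, ZMod.card]
      refine Eq.trans ?_ (h2.trans h5)
      congr 1
      exact h3.symm
    have h2 : (#I : ℝ) + q = q * q := by exact_mod_cast h1
    linarith
  let C : Ω → ℝ := fun ω => ∑ p ∈ I, Set.indicator {ω | X p.1 ω = X p.2 ω} (fun _ => (1 : ℝ)) ω
  have hmeas : ∀ p : ZMod q × ZMod q, MeasurableSet {ω | X p.1 ω = X p.2 ω} := fun p =>
    measurableSet_eq_fun (hX _) (hX _)
  have hint : ∀ p ∈ I, Integrable
      (fun ω => Set.indicator {ω | X p.1 ω = X p.2 ω} (fun _ => (1 : ℝ)) ω) P := fun p _ =>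
    (integrable_const 1).indicator (hmeas p)
  have h1 : ∫ ω, C ω ∂P = ∑ p ∈ I, P.real {ω | X p.1 ω = X p.2 ω} := by
    rw [integral_finsetSum _ hint]
    apply sum_congr rfl
    intro p _
    rw [integral_indicator (hmeas p)]
    simp [measureReal_def]
  have h2 : (#I : ℝ) * c ≤ ∫ ω, C ω ∂P := by
    rw [h1, ← nsmul_eq_mul, ← sum_const]
    apply sum_le_sum
    intro p hp
    exact hc _ _ (mem_filter.1 hp).2
  have h3 : ∫ ω, C ω ∂P ≤ K := by
    have h4 : ∫ ω, C ω ∂P ≤ ∫ _ω, K ∂P := by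
      apply integral_mono_ae (integrable_finsetSum _ hint) (integrable_const K)
      filter_upwards [hall] with ω hω
      have h5 := agree_le ι hι y δ hy0 hy1 hδ J hJ hcov (fun t => X t ω) hω
      refine le_trans (le_of_eq ?_) h5
      show ∑ p ∈ I, Set.indicator {ω | X p.1 ω = X p.2 ω} (fun _ => (1 : ℝ)) ω = _
      simp only [Set.indicator_apply, Set.mem_ofPred_eq]
      rw [← sum_filter, sum_const, nsmul_eq_mul, mul_one, filter_filter]
    rwa [integral_const, probReal_univ, one_smul] at h4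
  rw [← hI]
  exact h2.trans h3

end

end Pool.Agent.Lib.MP_4c6e08_pr
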